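import Pool.Agent.H586.SLB.Stm

/-!
# Project SLB (helper586), task SHA (helper190): the mass gap is not larger than `π / 2`
-/

set_option autoImplicit false
set_option linter.unusedSectionVars false

open MeasureTheory Set Filter Topology
open scoped Classical InnerProductSpace ComplexConjugate

namespace Pool.Agent.H190.SLB

open Pool.Agent.N990 Pool.Agent.N990.C Pool.Agent.N990.OS
open Pool.Agent.N839.C (tr tr_cont tr_supp tr_tr QC_tr CcF)

/-! ### Step 1: the semigroup -/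

section
variable {H : Type} [NormedAddCommGroup H] [InnerProductSpace ℂ H] {T : ℝ → H →L[ℂ] H} {v : H}

theorem semi_symm (hT : IsSemi T v) {s : ℝ} (hs : 0 ≤ s) (x y : H) :
    inner ℂ (T s x) y = inner ℂ x (T s y) := (hT.pos s hs).isSymmetric x y

theorem semi_vac (hT : IsSemi T v) {s : ℝ} (hs : 0 ≤ s) (x : H) :
    inner ℂ v (T s x) = inner ℂ v x := by
  rw [← semi_symm hT hs, hT.vac s hs]

theorem semi_pow (hT : IsSemi T v) {t : ℝ} (ht : 0 ≤ t) {c : ℝ} (hc : 0 ≤ c)
    (h : ∀ x, inner ℂ v x = 0 → ‖T t x‖ ≤ c * ‖x‖) (k : ℕ) {r : ℝ} (hr : 0 ≤ r) {x : H}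
    (hx : inner ℂ v x = 0) : ‖T (k * t + r) x‖ ≤ c ^ k * ‖x‖ := by
  induction k with
  | zero =>
    rw [Nat.cast_zero, zero_mul, zero_add, pow_zero]
    exact (T r).le_of_opNorm_le (hT.norm r hr) x
  | succ k ih =>
    have hk : 0 ≤ (k : ℝ) * t + r := by positivity
    have e : ((k + 1 : ℕ) : ℝ) * t + r = t + (k * t + r) := by push_cast; ring
    rw [e, hT.add t _ ht hk, pow_succ']
    have h1 : inner ℂ v (T (k * t + r) x) = 0 := by rw [semi_vac hT hk, hx]
    calc ‖(T t * T (k * t + r)) x‖ = ‖T t (T (k * t + r) x)‖ := rfl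
      _ ≤ c * ‖T (k * t + r) x‖ := h _ h1
      _ ≤ c * (c ^ k * ‖x‖) := mul_le_mul_of_nonneg_left ih hc
      _ = c * c ^ k * ‖x‖ := by ring

theorem semi_rate (hT : IsSemi T v) {t : ℝ} (ht : 0 ≤ t) {κ c : ℝ} (hκ : 0 < κ)
    (hcκ : c < Real.exp (-(κ * t))) (h : ∀ x, inner ℂ v x = 0 → ‖T t x‖ ≤ c * ‖x‖) :
    ∃ C m : ℝ, 0 ≤ C ∧ κ < m ∧ ∀ R, 0 ≤ R → ∀ x, inner ℂ v x = 0 →
      ‖T R x‖ ≤ C * Real.exp (-(m * R)) * ‖x‖ := by
  rcases ht.eq_or_lt with h0 | h0
  · refine ⟨0, κ + 1, le_rfl, by linarith, fun R hR x hx => ?_⟩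
    have h1 := h x hx
    rw [← h0, mul_zero, neg_zero, Real.exp_zero] at hcκ
    rw [← h0, hT.zero] at h1
    have h2 : ‖x‖ ≤ c * ‖x‖ := h1
    have h3 : ‖x‖ = 0 := by
      by_contra h4
      have h5 : 0 < ‖x‖ := lt_of_le_of_ne (norm_nonneg _) (Ne.symm h4)
      nlinarith
    have h4 : x = 0 := norm_eq_zero.1 h3
    rw [h4, map_zero, norm_zero, mul_zero]
  · obtain ⟨c', hc'⟩ : ∃ c', c' = max c (Real.exp (-((κ + 1) * t))) := ⟨_, rfl⟩
    have hc0 : 0 < c' := by
      rw [hc']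
      exact lt_max_of_lt_right (Real.exp_pos _)
    have hc1 : c' < Real.exp (-(κ * t)) := by
      rw [hc']
      refine max_lt hcκ (Real.exp_lt_exp.2 ?_)
      nlinarith
    have h' : ∀ x, inner ℂ v x = 0 → ‖T t x‖ ≤ c' * ‖x‖ := fun x hx =>
      (h x hx).trans (mul_le_mul_of_nonneg_right (by rw [hc']; exact le_max_left _ _)
        (norm_nonneg _))
    obtain ⟨m, hm⟩ : ∃ m, m = -Real.log c' / t := ⟨_, rfl⟩
    have hmt : m * t = -Real.log c' := by rw [hm]; field_simp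
    have hlog : Real.log c' < -(κ * t) := by
      rw [Real.log_lt_iff_lt_exp hc0]
      exact hc1
    have hmκ : κ < m := by
      by_contra h1
      have h2 := mul_le_mul_of_nonneg_right (not_lt.1 h1) h0.le
      linarith
    have hm0 : 0 < m := hκ.trans hmκ
    refine ⟨Real.exp (m * t), m, (Real.exp_pos _).le, hmκ, fun R hR x hx => ?_⟩
    have hk1 : (⌊R / t⌋₊ : ℝ) ≤ R / t := Nat.floor_le (by positivity)
    have hk2 : R / t < ⌊R / t⌋₊ + 1 := Nat.lt_floor_add_one _
    rw [le_div_iff₀ h0] at hk1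
    rw [div_lt_iff₀ h0] at hk2
    have h2 := semi_pow hT ht hc0.le h' ⌊R / t⌋₊ (r := R - ⌊R / t⌋₊ * t) (by linarith) hx
    rw [add_sub_cancel] at h2
    refine h2.trans (mul_le_mul_of_nonneg_right ?_ (norm_nonneg _))
    have e1 : c' = Real.exp (-(m * t)) := by
      rw [hmt, neg_neg, Real.exp_log hc0]
    rw [e1, ← Real.exp_nat_mul, ← Real.exp_add]
    refine Real.exp_le_exp.2 ?_
    nlinarith

theorem sq_split (hv : ‖v‖ = 1) (p : H) : ‖p - inner ℂ v p • v‖ ^ 2 = ‖p‖ ^ 2 - ‖inner ℂ v p‖ ^ 2 ∧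
    inner ℂ v (p - inner ℂ v p • v) = 0 := by
  have h0 : inner ℂ v (p - inner ℂ v p • v) = 0 := by
    rw [inner_sub_right, inner_smul_right, inner_self_eq_norm_sq_to_K, hv]
    simp
  refine ⟨?_, h0⟩
  have h1 : inner ℂ (inner ℂ v p • v) (p - inner ℂ v p • v) = 0 := by
    rw [inner_smul_left, h0, mul_zero]
  have h2 := norm_add_sq_eq_norm_sq_add_norm_sq_of_inner_eq_zero (𝕜 := ℂ) _ _ h1
  rw [add_sub_cancel, norm_smul, hv, mul_one] at h2
  nlinarith

theorem hil (hT : IsSemi T v) {R K : ℝ} (hR : 0 ≤ R) (hK : 0 ≤ K)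
    (h : ∀ x, inner ℂ v x = 0 → ‖T R x‖ ≤ K * ‖x‖) (p q : H) {P Q : ℝ} (hP : 0 ≤ P)
    (hp : ‖p‖ ^ 2 - ‖inner ℂ v p‖ ^ 2 ≤ P ^ 2) (hQ : 0 ≤ Q)
    (hq : ‖q‖ ^ 2 - ‖inner ℂ v q‖ ^ 2 ≤ Q ^ 2) :
    ‖inner ℂ p (T R q) - inner ℂ p v * inner ℂ v q‖ ≤ K * (P * Q) := by
  obtain ⟨hx1, hx2⟩ := sq_split hT.one p
  obtain ⟨hy1, hy2⟩ := sq_split hT.one q
  set x := p - inner ℂ v p • v with hx
  set y := q - inner ℂ v q • v with hy
  have ep : p = x + inner ℂ v p • v := by rw [hx, sub_add_cancel]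
  have eq1 : T R q = T R y + inner ℂ v q • v := by
    rw [hy, map_sub, map_smul, hT.vac R hR, sub_add_cancel]
  have hvy : inner ℂ v (T R y) = 0 := by rw [semi_vac hT hR, hy2]
  have e1 : inner ℂ p (T R q) - inner ℂ p v * inner ℂ v q = inner ℂ x (T R y) := by
    have e2 : inner ℂ p (T R y) = inner ℂ x (T R y) := by
      conv_lhs => rw [ep]
      rw [inner_add_left, inner_smul_left, hvy, mul_zero, add_zero]
    rw [eq1, inner_add_right, inner_smul_right, e2]
    ring
  rw [e1]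
  have hxP : ‖x‖ ≤ P := by
    refine le_of_sq_le_sq ?_ hP
    rw [hx1]; exact hp
  have hyQ : ‖y‖ ≤ Q := by
    refine le_of_sq_le_sq ?_ hQ
    rw [hy1]; exact hq
  calc ‖inner ℂ x (T R y)‖ ≤ ‖x‖ * ‖T R y‖ := norm_inner_le_norm _ _
    _ ≤ P * (K * Q) := by
      refine mul_le_mul hxP ((h y hy2).trans (mul_le_mul_of_nonneg_left hyQ hK)) (norm_nonneg _) hP
    _ = K * (P * Q) := by ring

end

/-! ### Step 2: real analysis -/

theorem real_lim {a b B K : ℝ} (h : ∀ s : ℝ, 0 < s →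
    |Real.exp (-(s ^ 2 * (a + b - 2 * B)) / 2) -
      Real.exp (-(s ^ 2 * a) / 2) * Real.exp (-(s ^ 2 * b) / 2)| ≤ K * s ^ 2) : |B| ≤ K := by
  obtain ⟨φ, hφ⟩ : ∃ φ : ℝ → ℝ, φ = fun σ => Real.exp (-(σ * (a + b - 2 * B)) / 2) -
      Real.exp (-(σ * a) / 2) * Real.exp (-(σ * b) / 2) := ⟨_, rfl⟩
  have hlin : ∀ k : ℝ, HasDerivAt (fun σ : ℝ => Real.exp (-(σ * k) / 2)) (-k / 2) 0 := by
    intro k
    have h1 : HasDerivAt (fun σ : ℝ => -(σ * k) / 2) (-(1 * k) / 2) 0 :=
      (((hasDerivAt_id (0 : ℝ)).mul_const k).neg).div_const 2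
    have h2 := h1.exp
    have e : Real.exp (-(0 * k) / 2) * (-(1 * k) / 2) = -k / 2 := by
      rw [zero_mul, neg_zero, zero_div, Real.exp_zero]
      ring
    rw [e] at h2
    exact h2
  have hd : HasDerivAt φ B 0 := by
    have h1 := (hlin (a + b - 2 * B)).sub ((hlin a).mul (hlin b))
    have e : -(a + b - 2 * B) / 2 - (-a / 2 * Real.exp (-(0 * b) / 2) +
        Real.exp (-(0 * a) / 2) * (-b / 2)) = B := by
      rw [zero_mul, zero_mul, neg_zero, zero_div, Real.exp_zero]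
      ring
    rw [e] at h1
    rw [hφ]
    exact h1
  have h0 : φ 0 = 0 := by
    rw [hφ]
    simp
  have h1 := hd.tendsto_slope_zero_right
  have h2 := h1.abs
  refine le_of_tendsto h2 ?_
  filter_upwards [self_mem_nhdsWithin] with σ hσ
  have hσ' : (0 : ℝ) < σ := hσ
  rw [zero_add, h0, sub_zero, smul_eq_mul, abs_mul, abs_inv, abs_of_pos hσ',
    inv_mul_le_iff₀ hσ', mul_comm]
  have h3 := h (Real.sqrt σ) (Real.sqrt_pos.2 hσ')
  rw [Real.sq_sqrt hσ'.le] at h3
  rw [hφ]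
  exact h3

/-! ### Step 3: the variance -/

section
variable {n D : ℕ}

theorem QC_comb (f g : SrcM D) (s r : ℝ) : QC (s • f.1 + r • g.1) =
    s ^ 2 * QC f.1 + 2 * (s * r) * inner ℝ (sol f) (sol g) + r ^ 2 * QC g.1 := by
  have h1 : QC (s • f.1 + r • g.1) = ‖sol (s • f + r • g)‖ ^ 2 := QC_sol (s • f + r • g)
  have h2 : sol (s • f + r • g) = s • sol f + r • sol g := by
    have := (solL D).map_add (s • f) (r • g)
    rw [(solL D).map_smul, (solL D).map_smul] at this
    exact this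
  rw [h1, h2, norm_add_sq_real, norm_smul, norm_smul, mul_pow, mul_pow, Real.norm_eq_abs,
    Real.norm_eq_abs, sq_abs, sq_abs, real_inner_smul_left, real_inner_smul_right, QC_sol, QC_sol]
  ring

theorem QC_z : QC (0 : Pt D → Fin D → ℝ) = 0 := by
  have h := QC_comb (0 : SrcM D) 0 0 0
  rw [zero_smul, add_zero] at h
  rw [h]
  ring

theorem Sc_single (j : Fin n) (h : Pt D → Fin D → ℝ) :
    (Sc (Pi.single j h : TD n D) : ℂ) = (Real.exp (-(QC h) / 2) : ℝ) := by
  unfold Sc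
  have e : ∑ k, QC ((Pi.single j h : TD n D) k) = QC h := by
    rw [Finset.sum_eq_single j]
    · rw [Pi.single_eq_same]
    · intro b _ hb
      rw [Pi.single_eq_of_ne hb]
      exact QC_z
    · intro hj
      exact absurd (Finset.mem_univ j) hj
  rw [e]

theorem half_single {i : Fin D} (j : Fin n) {h : Pt D → Fin D → ℝ} (hc : Continuous h)
    (hs : HasCompactSupport h) (hh : ∀ p : Pt D, p.1 i < 0 → h p = 0) :
    Half i (Pi.single j h : TD n D) where
  cont k := by
    by_cases hk : k = j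
    · subst hk
      rw [Pi.single_eq_same]; exact hc
    · rw [Pi.single_eq_of_ne hk]
      exact continuous_const
  supp k := by
    by_cases hk : k = j
    · subst hk
      rw [Pi.single_eq_same]; exact hs
    · rw [Pi.single_eq_of_ne hk]
      exact HasCompactSupport.zero
  half k p hp := by
    by_cases hk : k = j
    · subst hk
      rw [Pi.single_eq_same]; exact hh p hp
    · rw [Pi.single_eq_of_ne hk]
      rfl

theorem refl_single (i : Fin D) (j : Fin n) (h : Pt D → Fin D → ℝ) :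
    refl i (Pi.single j h : TD n D) = Pi.single j (rfF i h) := by
  funext k
  by_cases hk : k = j
  · subst hk
    rw [Pi.single_eq_same]
    show rfF i ((Pi.single k h : TD n D) k) = _
    rw [Pi.single_eq_same]
  · rw [Pi.single_eq_of_ne hk]
    show rfF i ((Pi.single j h : TD n D) k) = _
    rw [Pi.single_eq_of_ne hk]
    funext p l
    show sg i l * 0 = 0
    rw [mul_zero]

theorem shift_single (i : Fin D) (t : ℝ) (j : Fin n) (h : Pt D → Fin D → ℝ) :
    shift i t (Pi.single j h : TD n D) = Pi.single j (tr (Pi.single i t) h) := by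
  funext k
  by_cases hk : k = j
  · subst hk
    rw [Pi.single_eq_same]
    show tr (Pi.single i t) ((Pi.single k h : TD n D) k) = _
    rw [Pi.single_eq_same]
  · rw [Pi.single_eq_of_ne hk]
    show tr (Pi.single i t) ((Pi.single j h : TD n D) k) = _
    rw [Pi.single_eq_of_ne hk]
    rfl

end

theorem sha : Pool.Agent.H586.SLB.S_SHA := by
  intro n D hn hD i H _ _ _ T J hJ hT t ht c hc0 hc
  by_contra hlt
  rw [not_le] at hlt
  obtain ⟨C, m, hC, hm, hrate⟩ := semi_rate hT ht (by positivity) hlt hc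
  refine Pool.Agent.N986.CL.not_rate_dir hD i hm ⟨2 * C, ?_⟩
  intro f g R hf hg hfs hgs hR hfn hgn
  have j : Fin n := ⟨0, by omega⟩
  obtain ⟨fS, hfS⟩ : ∃ fS : SrcM D, fS.1 = f := ⟨⟨f, hf, hfs⟩, rfl⟩
  obtain ⟨gS, hgS⟩ : ∃ gS : SrcM D, gS.1 = g := ⟨⟨g, hg, hgs⟩, rfl⟩
  obtain ⟨B, hB⟩ : ∃ B : ℝ, B = inner ℝ (sol fS) (sol gS) := ⟨_, rfl⟩
  have ha0 : 0 ≤ QC f := by rw [← hfS, QC_sol]; positivity
  have hb0 : 0 ≤ QC g := by rw [← hgS, QC_sol]; positivity
  have hcomb : ∀ s r : ℝ, QC (s • f + r • g) = s ^ 2 * QC f + 2 * (s * r) * B + r ^ 2 * QC g := by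
    intro s r
    have := QC_comb fS gS s r
    rw [hfS, hgS, ← hB] at this
    exact this
  have hsum : QC (f + g) - QC f - QC g = 2 * B := by
    have := hcomb 1 1
    rw [one_smul, one_smul] at this
    rw [this]
    ring
  rw [hsum, abs_mul, abs_two, mul_assoc, mul_assoc]
  refine mul_le_mul_of_nonneg_left ?_ (by norm_num)
  -- the vectors
  obtain ⟨g0, hg0⟩ : ∃ g0, g0 = tr (Pi.single i (-R)) g := ⟨_, rfl⟩
  have hg0c : Continuous g0 := by rw [hg0]; exact tr_cont hg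
  have hg0s : HasCompactSupport g0 := by rw [hg0]; exact tr_supp hgs
  have hg0Q : QC g0 = QC g := by rw [hg0]; exact QC_tr _ hg hgs
  have hg0h : ∀ p : Pt D, p.1 i < 0 → g0 p = 0 := by
    intro p hp
    by_contra h1
    rw [hg0] at h1
    have h2 : g (p.1 - Pi.single i (-R), p.2) ≠ 0 := h1
    have h3 : R ≤ (p.1 - Pi.single i (-R) : Fin D → ℝ) i := hgn _ h2
    rw [Pi.sub_apply, Pi.single_eq_same] at h3
    linarith
  have hgh : ∀ p : Pt D, p.1 i < 0 → g p = 0 := by
    intro p hp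
    by_contra h1
    have := hgn _ h1
    linarith
  have htrg : ∀ s : ℝ, tr (Pi.single i R) (s • g0) = s • g := by
    intro s
    have h1 : tr (Pi.single i R) g0 = g := by
      have h2 := tr_tr (Pi.single i (-R)) g
      rw [← hg0, ← Pi.single_neg, neg_neg] at h2
      exact h2
    calc tr (Pi.single i R) (s • g0) = s • tr (Pi.single i R) g0 := rfl
      _ = s • g := by rw [h1]
  obtain ⟨f0, hf0⟩ : ∃ f0, f0 = rfF i f := ⟨_, rfl⟩
  have hf0c : Continuous f0 := by rw [hf0]; exact rfF_cont hf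
  have hf0s : HasCompactSupport f0 := by rw [hf0]; exact rfF_supp hfs
  have hf0h : ∀ p : Pt D, p.1 i < 0 → f0 p = 0 := by
    intro p hp
    have h1 : f (rfp i p) = 0 := by
      by_contra h1
      have h2 := hfn _ h1
      have h3 : (rfp i p).1 i = -p.1 i := Function.update_self _ _ _
      rw [h3] at h2
      linarith
    rw [hf0]
    funext k
    show sg i k * f (rfp i p) k = 0
    rw [h1]
    exact mul_zero _
  have hrf : ∀ s : ℝ, rfF i (s • f0) = s • f := by
    intro s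
    rw [rfF_smul, hf0, rfF_rfF]
  have hz : Half i (0 : TD n D) :=
    ⟨fun _ => continuous_const, fun _ => HasCompactSupport.zero, fun _ _ _ => rfl⟩
  have hrz : refl i (0 : TD n D) = 0 := by
    funext k p l
    show (if l = i then (-1 : ℝ) else 1) * 0 = 0
    exact mul_zero _
  -- the main estimate
  have hlim : |B| ≤ C * Real.exp (-(m * R)) * (√(QC f) * √(QC g)) := by
    refine real_lim (a := QC f) (b := QC g) fun s hs => ?_
    obtain ⟨F, hF⟩ : ∃ F : TD n D, F = Pi.single j (s • f0) := ⟨_, rfl⟩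
    obtain ⟨G, hG⟩ : ∃ G : TD n D, G = Pi.single j (s • g0) := ⟨_, rfl⟩
    have hFh : Half i F := by
      rw [hF]
      refine half_single j (hf0c.const_smul s) (hf0s.smul_left (f := fun _ => s)) fun p hp => ?_
      rw [Pi.smul_apply, hf0h p hp, smul_zero]
    have hGh : Half i G := by
      rw [hG]
      refine half_single j (hg0c.const_smul s) (hg0s.smul_left (f := fun _ => s)) fun p hp => ?_
      rw [Pi.smul_apply, hg0h p hp, smul_zero]
    have hrF : refl i F = Pi.single j (s • f) := by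
      rw [hF, refl_single, hrf]
    have hsG : shift i R G = Pi.single j (s • g) := by
      rw [hG, shift_single, htrg]
    have hsGh : Half i (shift i R G) := by
      rw [hsG]
      refine half_single j (hg.const_smul s) (hgs.smul_left (f := fun _ => s)) fun p hp => ?_
      rw [Pi.smul_apply, hgh p hp, smul_zero]
    -- inner products
    have i1 : inner ℂ (J F) (T R (J G)) =
        ((Real.exp (-(s ^ 2 * (QC f + QC g - 2 * B)) / 2) : ℝ) : ℂ) := by
      rw [hJ.transfer R hR G hGh, hJ.inner_eq F _ hFh hsGh, hrF, hsG, ← Pi.single_sub, Sc_single]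
      have e : QC (s • g - s • f) = s ^ 2 * (QC f + QC g - 2 * B) := by
        have h1 := hcomb (-s) s
        have h2 : s • g - s • f = -s • f + s • g := by
          rw [neg_smul]
          abel
        rw [h2, h1]
        ring
      rw [e]
    have i2 : inner ℂ (J F) (J 0) = ((Real.exp (-(s ^ 2 * QC f) / 2) : ℝ) : ℂ) := by
      rw [hJ.inner_eq F _ hFh hz, hrF, zero_sub, ← Pi.single_neg, Sc_single]
      have e : QC (-(s • f)) = s ^ 2 * QC f := by
        have h1 := hcomb (-s) 0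
        rw [zero_smul, add_zero, neg_smul] at h1
        rw [h1]
        ring
      rw [e]
    have i3 : inner ℂ (J 0) (J G) = ((Real.exp (-(s ^ 2 * QC g) / 2) : ℝ) : ℂ) := by
      rw [hJ.inner_eq 0 G hz hGh, hrz, sub_zero, hG, Sc_single]
      have e : QC (s • g0) = s ^ 2 * QC g := by
        have h1 := QC_comb (⟨g0, hg0c, hg0s⟩ : SrcM D) 0 s 0
        rw [zero_smul, add_zero] at h1
        rw [h1]
        show s ^ 2 * QC g0 + _ + _ = _
        rw [hg0Q]
        ring
      rw [e]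
    have nrm : ∀ F' : TD n D, Half i F' → ‖J F'‖ ^ 2 ≤ 1 := by
      intro F' hF'
      have h1 : ((‖J F'‖ ^ 2 : ℝ) : ℂ) = Sc (F' - refl i F') := by
        rw [← hJ.inner_eq F' F' hF' hF', inner_self_eq_norm_sq_to_K]
        push_cast
        rfl
      unfold Sc at h1
      have h2 : ‖J F'‖ ^ 2 = Real.exp (-(∑ j, QC ((F' - refl i F') j)) / 2) := by
        exact_mod_cast h1
      rw [h2]
      refine Real.exp_le_one_iff.2 ?_
      have h3 : 0 ≤ ∑ j, QC ((F' - refl i F') j) := by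
        refine Finset.sum_nonneg fun k _ => ?_
        refine Pool.Agent.N839.C.QC_nonneg (CcF.of ?_ ?_)
        · exact (hF'.cont k).sub (rfF_cont (hF'.cont k))
        · exact (hF'.supp k).sub (rfF_supp (hF'.supp k))
      linarith
    have bd : ∀ (p : H) (a : ℝ), ‖p‖ ^ 2 ≤ 1 → 0 ≤ a →
        ‖inner ℂ (J 0) p‖ = Real.exp (-(s ^ 2 * a) / 2) →
        ‖p‖ ^ 2 - ‖inner ℂ (J 0) p‖ ^ 2 ≤ (s * √a) ^ 2 := by
      intro p a h1 h2 h3
      rw [h3, mul_pow, Real.sq_sqrt h2, ← Real.exp_nat_mul]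
      have e : ((2 : ℕ) : ℝ) * (-(s ^ 2 * a) / 2) = -(s ^ 2 * a) := by push_cast; ring
      rw [e]
      have := Real.one_sub_le_exp_neg (s ^ 2 * a)
      linarith
    have hi2 : ‖inner ℂ (J 0) (J F)‖ = Real.exp (-(s ^ 2 * QC f) / 2) := by
      rw [norm_inner_symm, i2, Complex.norm_real, Real.norm_eq_abs, Real.abs_exp]
    have hi3 : ‖inner ℂ (J 0) (J G)‖ = Real.exp (-(s ^ 2 * QC g) / 2) := by
      rw [i3, Complex.norm_real, Real.norm_eq_abs, Real.abs_exp]
    have hfin := hil hT hR (by positivity : 0 ≤ C * Real.exp (-(m * R))) (hrate R hR) (J F) (J G)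
      (by positivity : 0 ≤ s * √(QC f)) (bd _ _ (nrm F hFh) ha0 hi2)
      (by positivity : 0 ≤ s * √(QC g)) (bd _ _ (nrm G hGh) hb0 hi3)
    rw [i1, i2, i3, ← Complex.ofReal_mul, ← Complex.ofReal_sub, Complex.norm_real,
      Real.norm_eq_abs] at hfin
    refine hfin.trans (le_of_eq ?_)
    ring
  rw [Real.sqrt_mul ha0]
  rw [mul_assoc] at hlim
  exact hlim

end Pool.Agent.H190.SLB
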